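import Pool.Agent.Lib_helper54.TS.Aux5

/-!
Totally positive algebraic integers of small trace: the conjugates of `b` have mean at least `5/3`
unless `b` is `0`, `1` or `(3 ± √5)/2`.
-/

set_option autoImplicit false

namespace Pool.Agent.TS

open Polynomial IntermediateField

variable {K : Type} [Field K] [NumberField K]

/-- nonzero algebraic integers have norm at least one in absolute value -/
theorem one_le_prod {c : K} (hc : IsIntegral ℤ c) (h0 : c ≠ 0) :
    1 ≤ ∏ φ : K →+* ℂ, ‖φ c‖ := by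
  have h1 : IsIntegral ℤ (Algebra.norm ℚ c) := Algebra.isIntegral_norm ℚ hc
  obtain ⟨n, hn⟩ := IsIntegrallyClosed.isIntegral_iff.1 h1
  have h2 : Algebra.norm ℚ c ≠ 0 := Algebra.norm_ne_zero_iff.2 h0
  have h3 : n ≠ 0 := by
    rintro rfl
    exact h2 (by rw [← hn]; simp)
  have h4 : ∏ φ : K →+* ℂ, φ c = ((Algebra.norm ℚ c : ℚ) : ℂ) := by
    have := Algebra.norm_eq_prod_embeddings ℚ ℂ c
    rw [eq_ratCast] at this
    rw [this]
    exact Fintype.prod_equiv (RingHom.equivRatAlgHom K ℂ) (fun φ => φ c) (fun φ => φ c)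
      fun φ => rfl
  have h5 : ∏ φ : K →+* ℂ, ‖φ c‖ = |(n : ℝ)| := by
    rw [← norm_prod, h4, ← hn]
    simp
  rw [h5]
  exact_mod_cast Int.one_le_abs h3

theorem sum_log_nonneg {c : K} (hc : IsIntegral ℤ c) (h0 : c ≠ 0) :
    0 ≤ ∑ φ : K →+* ℂ, Real.log ‖φ c‖ := by
  rw [← Real.log_prod (fun φ _ => norm_ne_zero_iff.2 ((map_ne_zero φ).2 h0))]
  exact Real.log_nonneg (one_le_prod hc h0)

/-- the sum of the conjugates, from the minimal polynomial -/
theorem sum_conj {c : K} {m : ℚ[X]} (hm : m.Monic) (hirr : Irreducible m) (h : aeval c m = 0)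
    {k : ℕ} (hk : m.natDegree = k) :
    (k : ℂ) * ∑ φ : K →+* ℂ, φ c =
      (Fintype.card (K →+* ℂ) : ℂ) * ((-(m.nextCoeff) : ℚ) : ℂ) := by
  have hmin : m = minpoly ℚ c := minpoly.eq_of_irreducible_of_monic hirr h hm
  have h1 := trace_eq_finrank_mul_minpoly_nextCoeff ℚ c
  have h4 : ∑ φ : K →+* ℂ, φ c = ((Algebra.trace ℚ K c : ℚ) : ℂ) := by
    have := trace_eq_sum_embeddings (K := ℚ) (L := K) ℂ (x := c)
    rw [eq_ratCast] at this
    rw [this]
    exact Fintype.sum_equiv (RingHom.equivRatAlgHom K ℂ) (fun φ => φ c) (fun φ => φ c)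
      fun φ => rfl
  have h5 : Module.finrank ℚ ℚ⟮c⟯ = k := by
    rw [adjoin.finrank (Algebra.IsIntegral.isIntegral c), ← hmin, hk]
  have h6 : Fintype.card (K →+* ℂ) = Module.finrank ℚ K := NumberField.Embeddings.card K ℂ
  have h7 : Module.finrank ℚ ℚ⟮c⟯ * Module.finrank ℚ⟮c⟯ K = Module.finrank ℚ K :=
    Module.finrank_mul_finrank ℚ ℚ⟮c⟯ K
  rw [h4, h1, ← hmin, h6, ← h7, h5]
  push_cast
  ring

theorem golden_irr : Irreducible (X ^ 2 - 3 * X + 1 : ℚ[X]) ∧ (X ^ 2 - 3 * X + 1 : ℚ[X]).Monic ∧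
    (X ^ 2 - 3 * X + 1 : ℚ[X]).natDegree = 2 ∧ (X ^ 2 - 3 * X + 1 : ℚ[X]).nextCoeff = -3 := by
  have hd : (X ^ 2 - 3 * X + 1 : ℚ[X]).natDegree = 2 := by compute_degree!
  have hmo : (X ^ 2 - 3 * X + 1 : ℚ[X]).Monic := by monicity!
  refine ⟨?_, hmo, hd, ?_⟩
  · apply irreducible_of_degree_le_three_of_not_isRoot (by rw [hd]; decide)
    intro x hx
    have h1 : x ^ 2 - 3 * x + 1 = 0 := by
      have := hx
      simpa [IsRoot.def] using this
    have h2 : IsSquare (5 : ℚ) := ⟨2 * x - 3, by linear_combination -4 * h1⟩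
    have h3 : ¬ IsSquare (5 : ℚ) := by
      intro h
      have : IsSquare ((5 : ℕ) : ℚ) := by exact_mod_cast h
      rw [Rat.isSquare_natCast_iff] at this
      obtain ⟨r, hr⟩ := this
      have : r < 3 := by nlinarith
      interval_cases r <;> omega
    exact h3 h2
  · rw [nextCoeff_of_natDegree_pos (by rw [hd]; norm_num), hd]
    simp [coeff_one, coeff_X]

theorem cubic_irr : Irreducible (X ^ 3 - 5 * X ^ 2 + 6 * X - 1 : ℚ[X]) ∧
    (X ^ 3 - 5 * X ^ 2 + 6 * X - 1 : ℚ[X]).Monic ∧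
    (X ^ 3 - 5 * X ^ 2 + 6 * X - 1 : ℚ[X]).natDegree = 3 ∧
    (X ^ 3 - 5 * X ^ 2 + 6 * X - 1 : ℚ[X]).nextCoeff = -5 := by
  have hd : (X ^ 3 - 5 * X ^ 2 + 6 * X - 1 : ℚ[X]).natDegree = 3 := by compute_degree!
  have hmo : (X ^ 3 - 5 * X ^ 2 + 6 * X - 1 : ℚ[X]).Monic := by monicity!
  refine ⟨?_, hmo, hd, ?_⟩
  · apply irreducible_of_degree_le_three_of_not_isRoot (by rw [hd]; decide)
    intro x hx
    have h1 : x ^ 3 - 5 * x ^ 2 + 6 * x - 1 = 0 := by
      have := hx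
      simpa [IsRoot.def] using this
    have hint : IsIntegral ℤ x := by
      refine ⟨X ^ 3 - 5 * X ^ 2 + 6 * X - 1, by monicity!, ?_⟩
      simpa [eval₂_eq_eval_map] using h1
    obtain ⟨n, hn⟩ := IsIntegrallyClosed.isIntegral_iff.1 hint
    have h2 : n ^ 3 - 5 * n ^ 2 + 6 * n - 1 = 0 := by
      have h3 : ((n ^ 3 - 5 * n ^ 2 + 6 * n - 1 : ℤ) : ℚ) = 0 := by
        rw [← hn] at h1
        push_cast
        simpa using h1
      exact_mod_cast h3
    have h4 : n * (n ^ 2 - 5 * n + 6) = 1 := by linear_combination h2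
    rcases Int.eq_one_or_neg_one_of_mul_eq_one h4 with rfl | rfl
    · norm_num at h2
    · norm_num at h2
  · rw [nextCoeff_of_natDegree_pos (by rw [hd]; norm_num), hd]
    simp [coeff_one, coeff_X]

/-- `b` is totally positive -/
def TotPos (b : K) : Prop := ∀ φ : K →+* ℂ, (φ b).im = 0 ∧ 0 < (φ b).re

omit [NumberField K] in
theorem TotPos.eq {b : K} (h : TotPos b) (φ : K →+* ℂ) : φ b = (((φ b).re : ℝ) : ℂ) := by
  apply Complex.ext
  · simp
  · simpa using (h φ).1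

theorem sum_golden {b : K} (h : b ^ 2 - 3 * b + 1 = 0) :
    ∑ φ : K →+* ℂ, (φ b).re = 3 / 2 * (Fintype.card (K →+* ℂ) : ℝ) := by
  obtain ⟨hi, hm, hd, hn⟩ := golden_irr
  have h1 := sum_conj (c := b) hm hi (by simpa [map_ofNat] using h) hd
  rw [hn] at h1
  have h2 := congrArg Complex.re h1
  push_cast at h2
  simp at h2
  linarith

theorem sum_cubic {b : K} (h : b ^ 3 - 5 * b ^ 2 + 6 * b - 1 = 0) :
    ∑ φ : K →+* ℂ, (φ b).re = 5 / 3 * (Fintype.card (K →+* ℂ) : ℝ) := by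
  obtain ⟨hi, hm, hd, hn⟩ := cubic_irr
  have h1 := sum_conj (c := b) hm hi (by simpa [map_ofNat] using h) hd
  rw [hn] at h1
  have h2 := congrArg Complex.re h1
  push_cast at h2
  simp at h2
  linarith

/-- Siegel-Smyth type bound -/
theorem sum_ge {b : K} (hb : IsIntegral ℤ b) (hp : TotPos b) (h1 : b ≠ 1)
    (hg : b ^ 2 - 3 * b + 1 ≠ 0) :
    5 / 3 * (Fintype.card (K →+* ℂ) : ℝ) ≤ ∑ φ : K →+* ℂ, (φ b).re := by
  by_cases h2 : b = 2
  · subst h2
    simp only [map_ofNat, Complex.re_ofNat, Finset.sum_const, Finset.card_univ, nsmul_eq_mul]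
    have : 0 ≤ (Fintype.card (K →+* ℂ) : ℝ) := Nat.cast_nonneg _
    linarith
  by_cases hc : b ^ 3 - 5 * b ^ 2 + 6 * b - 1 = 0
  · exact (sum_cubic hc).ge
  have hne : Nonempty (K →+* ℂ) := inferInstance
  have hb0 : b ≠ 0 := by
    rintro rfl
    obtain ⟨φ⟩ := hne
    have := (hp φ).2
    simp at this
  have hi : ∀ z : ℤ, IsIntegral ℤ ((z : K)) := fun z => isIntegral_algebraMap
  have key : ∀ φ : K →+* ℂ, 1.67 + (0.65 * Real.log ‖φ b‖ + 0.70 * Real.log ‖φ (b - 1)‖ +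
      0.08 * Real.log ‖φ (b - 2)‖ + 0.22 * Real.log ‖φ (b ^ 2 - 3 * b + 1)‖ +
      0.09 * Real.log ‖φ (b ^ 3 - 5 * b ^ 2 + 6 * b - 1)‖) ≤ (φ b).re := by
    intro φ
    have e := hp.eq φ
    set t := (φ b).re with ht
    have inj : ∀ {x y : K}, φ x = φ y → x = y := fun h => φ.injective h
    have t1 : t ≠ 1 := by
      intro h
      apply h1
      apply inj
      rw [e, h]; simp
    have t2 : t ≠ 2 := by
      intro h
      apply h2
      apply inj
      rw [e, h, map_ofNat]; norm_num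
    have t3 : t ^ 2 - 3 * t + 1 ≠ 0 := by
      intro h
      apply hg
      apply inj
      have : φ (b ^ 2 - 3 * b + 1) = ((t ^ 2 - 3 * t + 1 : ℝ) : ℂ) := by
        simp only [map_add, map_sub, map_mul, map_pow, map_one, map_ofNat, e]
        push_cast; ring
      rw [this, h]; simp
    have t4 : t ^ 3 - 5 * t ^ 2 + 6 * t - 1 ≠ 0 := by
      intro h
      apply hc
      apply inj
      have : φ (b ^ 3 - 5 * b ^ 2 + 6 * b - 1) = ((t ^ 3 - 5 * t ^ 2 + 6 * t - 1 : ℝ) : ℂ) := by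
        simp only [map_add, map_sub, map_mul, map_pow, map_one, map_ofNat, e]
        push_cast; ring
      rw [this, h]; simp
    have h := aux5 t (hp φ).2 t1 t2 t3 t4
    have n0 : ‖φ b‖ = |t| := by rw [e]; simp
    have n1 : ‖φ (b - 1)‖ = |t - 1| := by
      rw [map_sub, map_one, e, ← Complex.ofReal_one, ← Complex.ofReal_sub, Complex.norm_real,
        Real.norm_eq_abs]
    have n2 : ‖φ (b - 2)‖ = |t - 2| := by
      have : φ (b - 2) = ((t - 2 : ℝ) : ℂ) := by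
        simp only [map_sub, map_ofNat, e]
        push_cast; ring
      rw [this, Complex.norm_real, Real.norm_eq_abs]
    have n3 : ‖φ (b ^ 2 - 3 * b + 1)‖ = |t ^ 2 - 3 * t + 1| := by
      have : φ (b ^ 2 - 3 * b + 1) = ((t ^ 2 - 3 * t + 1 : ℝ) : ℂ) := by
        simp only [map_add, map_sub, map_mul, map_pow, map_one, map_ofNat, e]
        push_cast; ring
      rw [this, Complex.norm_real, Real.norm_eq_abs]
    have n4 : ‖φ (b ^ 3 - 5 * b ^ 2 + 6 * b - 1)‖ = |t ^ 3 - 5 * t ^ 2 + 6 * t - 1| := by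
      have : φ (b ^ 3 - 5 * b ^ 2 + 6 * b - 1) = ((t ^ 3 - 5 * t ^ 2 + 6 * t - 1 : ℝ) : ℂ) := by
        simp only [map_add, map_sub, map_mul, map_pow, map_one, map_ofNat, e]
        push_cast; ring
      rw [this, Complex.norm_real, Real.norm_eq_abs]
    rw [n0, n1, n2, n3, n4]
    exact h
  have hs := Finset.sum_le_sum (fun φ (_ : φ ∈ Finset.univ) => key φ)
  rw [Finset.sum_add_distrib] at hs
  simp only [Finset.sum_add_distrib, ← Finset.mul_sum, Finset.sum_const, Finset.card_univ,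
    nsmul_eq_mul] at hs
  have i1 : IsIntegral ℤ (b - 1) := hb.sub isIntegral_one
  have i2 : IsIntegral ℤ (b - 2) := hb.sub (by simpa using hi 2)
  have i3 : IsIntegral ℤ (b ^ 2 - 3 * b + 1) :=
    ((hb.pow 2).sub ((by simpa using hi 3 : IsIntegral ℤ (3 : K)).mul hb)).add isIntegral_one
  have i4 : IsIntegral ℤ (b ^ 3 - 5 * b ^ 2 + 6 * b - 1) :=
    (((hb.pow 3).sub ((by simpa using hi 5 : IsIntegral ℤ (5 : K)).mul (hb.pow 2))).add
      ((by simpa using hi 6 : IsIntegral ℤ (6 : K)).mul hb)).sub isIntegral_one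
  have l0 := sum_log_nonneg hb hb0
  have l1 := sum_log_nonneg i1 (sub_ne_zero.2 h1)
  have l2 := sum_log_nonneg i2 (sub_ne_zero.2 h2)
  have l3 := sum_log_nonneg i3 hg
  have l4 := sum_log_nonneg i4 hc
  have hd : 0 ≤ (Fintype.card (K →+* ℂ) : ℝ) := Nat.cast_nonneg _
  nlinarith

end Pool.Agent.TS
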