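import Pool.Agent.Lib_helper54.TS.Defs
import Pool.Agent.Lib_helper54.TS.Field

set_option autoImplicit false

namespace Pool.Agent.TS

open Filter Topology

/-! ### counting -/

theorem density_of_bad {n : ℕ} {K : Type} [Field K] [NumberField K] {E : Finset ℕ} {a : ℕ → K}
    {α : (K →+* ℂ) → ℕ → Fin n → ℂ} (h : ArtinSystem n K E a α) (S : Set ℕ) (C : ℝ) (hC : 0 < C)
    (hbad : ∀ p : ℕ, p.Prime → p ∉ E → p ∉ S →
      C * (Fintype.card (K →+* ℂ) : ℝ) ≤ ∑ τ : K →+* ℂ, ‖τ (a p)‖ ^ 2) :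
    LowerDensityGE {p | p ∉ E ∧ p ∈ S} (1 - 1 / C) := by
  classical
  intro ε hε
  have hne : Nonempty (K →+* ℂ) := inferInstance
  have hd : 0 < (Fintype.card (K →+* ℂ) : ℝ) := by
    exact_mod_cast Fintype.card_pos
  have hr : ∀ᶠ x : ℕ in atTop, ∀ τ : K →+* ℂ,
      ∑ p ∈ primesUpTo {p | p ∉ E} x, ‖τ (a p)‖ ^ 2 ≤
        (1 + ε * C / 2) * (Nat.primeCounting x : ℝ) := by
    rw [Filter.eventually_all]
    intro τ
    exact h.rankin τ (ε * C / 2) (by positivity)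
  have hpi : ∀ᶠ x : ℕ in atTop, 2 * (E.card : ℝ) / ε ≤ (Nat.primeCounting x : ℝ) := by
    have := (tendsto_natCast_atTop_atTop (R := ℝ)).comp Nat.tendsto_primeCounting
    exact this.eventually_ge_atTop _
  filter_upwards [hr, hpi] with x hx hpx
  set B := primesUpTo {p | p ∉ E ∧ p ∉ S} x with hB
  set G := primesUpTo {p | p ∉ E ∧ p ∈ S} x with hG
  have hBsub : B ⊆ primesUpTo {p | p ∉ E} x := by
    intro p hp
    simp only [hB, primesUpTo, Finset.mem_filter, Set.mem_ofPred_eq] at hp ⊢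
    exact ⟨hp.1, hp.2.1, hp.2.2.1⟩
  have h1 : (B.card : ℝ) * (C * (Fintype.card (K →+* ℂ) : ℝ)) ≤
      (Fintype.card (K →+* ℂ) : ℝ) * ((1 + ε * C / 2) * (Nat.primeCounting x : ℝ)) := by
    calc (B.card : ℝ) * (C * (Fintype.card (K →+* ℂ) : ℝ))
        = ∑ p ∈ B, C * (Fintype.card (K →+* ℂ) : ℝ) := by
          rw [Finset.sum_const, nsmul_eq_mul]
      _ ≤ ∑ p ∈ B, ∑ τ : K →+* ℂ, ‖τ (a p)‖ ^ 2 := by
          apply Finset.sum_le_sum
          intro p hp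
          simp only [hB, primesUpTo, Finset.mem_filter, Set.mem_ofPred_eq] at hp
          exact hbad p hp.2.1 hp.2.2.1 hp.2.2.2
      _ ≤ ∑ p ∈ primesUpTo {p | p ∉ E} x, ∑ τ : K →+* ℂ, ‖τ (a p)‖ ^ 2 := by
          apply Finset.sum_le_sum_of_subset_of_nonneg hBsub
          intro p _ _
          exact Finset.sum_nonneg (fun τ _ => sq_nonneg _)
      _ = ∑ τ : K →+* ℂ, ∑ p ∈ primesUpTo {p | p ∉ E} x, ‖τ (a p)‖ ^ 2 := Finset.sum_comm
      _ ≤ ∑ τ : K →+* ℂ, (1 + ε * C / 2) * (Nat.primeCounting x : ℝ) :=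
          Finset.sum_le_sum (fun τ _ => hx τ)
      _ = _ := by rw [Finset.sum_const, nsmul_eq_mul, Finset.card_univ]
  have h2 : (B.card : ℝ) ≤ (1 / C + ε / 2) * (Nat.primeCounting x : ℝ) := by
    have h3 : (B.card : ℝ) * C ≤ (1 + ε * C / 2) * (Nat.primeCounting x : ℝ) := by
      have : (Fintype.card (K →+* ℂ) : ℝ) * ((B.card : ℝ) * C) ≤
          (Fintype.card (K →+* ℂ) : ℝ) * ((1 + ε * C / 2) * (Nat.primeCounting x : ℝ)) := by
        linarith
      exact le_of_mul_le_mul_left this hd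
    have h4 : (B.card : ℝ) ≤ ((1 + ε * C / 2) * (Nat.primeCounting x : ℝ)) / C := by
      rw [le_div_iff₀ hC]; exact h3
    refine h4.trans (le_of_eq ?_)
    field_simp
  have h5 : (Nat.primeCounting x : ℝ) ≤ (G.card : ℝ) + (B.card : ℝ) + (E.card : ℝ) := by
    have hsub : (Finset.range (x + 1)).filter Nat.Prime ⊆ (G ∪ B) ∪ E := by
      intro p hp
      simp only [Finset.mem_filter] at hp
      by_cases hE : p ∈ E
      · exact Finset.mem_union_right _ hE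
      · apply Finset.mem_union_left
        by_cases hS : p ∈ S
        · apply Finset.mem_union_left
          simp only [hG, primesUpTo, Finset.mem_filter, Set.mem_ofPred_eq]
          exact ⟨hp.1, hp.2, hE, hS⟩
        · apply Finset.mem_union_right
          simp only [hB, primesUpTo, Finset.mem_filter, Set.mem_ofPred_eq]
          exact ⟨hp.1, hp.2, hE, hS⟩
    have h6 : Nat.primeCounting x = ((Finset.range (x + 1)).filter Nat.Prime).card := by
      rw [Nat.primeCounting, Nat.primeCounting', Nat.count_eq_card_filter_range]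
    rw [h6]
    have h7 := (Finset.card_le_card hsub).trans
      ((Finset.card_union_le _ _).trans (Nat.add_le_add_right (Finset.card_union_le _ _) _))
    exact_mod_cast h7
  have h8 : (E.card : ℝ) ≤ ε / 2 * (Nat.primeCounting x : ℝ) := by
    rw [div_le_iff₀ hε] at hpx
    linarith
  linarith

/-! ### roots of unity -/

theorem IsRU.one : IsRU 1 := ⟨1, one_pos, one_pow 1⟩

theorem IsRU.neg_one : IsRU (-1) := ⟨2, two_pos, by norm_num⟩

theorem IsRU.mul {z w : ℂ} (hz : IsRU z) (hw : IsRU w) : IsRU (z * w) := by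
  obtain ⟨m, hm, h⟩ := hz
  obtain ⟨k, hk, h'⟩ := hw
  refine ⟨m * k, Nat.mul_pos hm hk, ?_⟩
  rw [mul_pow, pow_mul, h, one_pow, mul_comm m k, pow_mul, h', one_pow, one_mul]

theorem IsRU.neg {z : ℂ} (hz : IsRU z) : IsRU (-z) := by
  rw [← neg_one_mul]; exact IsRU.neg_one.mul hz

theorem IsRU.inv {z : ℂ} (hz : IsRU z) : IsRU z⁻¹ := by
  obtain ⟨m, hm, h⟩ := hz
  exact ⟨m, hm, by rw [inv_pow, h, inv_one]⟩

theorem IsRU.of_pow {z : ℂ} {k : ℕ} (hk : 0 < k) (hz : IsRU (z ^ k)) : IsRU z := by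
  obtain ⟨m, hm, h⟩ := hz
  exact ⟨k * m, Nat.mul_pos hk hm, by rw [pow_mul, h]⟩

theorem IsRU.norm {z : ℂ} (hz : IsRU z) : ‖z‖ = 1 := by
  obtain ⟨m, hm, h⟩ := hz
  exact Complex.norm_eq_one_of_pow_eq_one h hm.ne'

theorem IsRU.ne_zero {z : ℂ} (hz : IsRU z) : z ≠ 0 := by
  intro h
  have := hz.norm
  rw [h] at this
  simp at this

/-- `exp (2 pi i j / k)` -/
theorem isRU_exp (j : ℤ) (k : ℕ) (hk : 0 < k) :
    IsRU (Complex.exp (((2 * Real.pi * j / k : ℝ) : ℂ) * Complex.I)) := by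
  refine ⟨k, hk, ?_⟩
  rw [← Complex.exp_nat_mul, Complex.exp_eq_one_iff]
  refine ⟨j, ?_⟩
  have : (k : ℂ) ≠ 0 := by exact_mod_cast hk.ne'
  push_cast
  field_simp

theorem IsSumRU.of_eq {n : ℕ} {z w : ℂ} (h : IsSumRU n z) (e : z = w) : IsSumRU n w := e ▸ h

theorem IsSumRU.zero : IsSumRU 0 0 := ⟨fun i => 1, fun i => IsRU.one, by simp⟩

theorem IsSumRU.add_one {n : ℕ} {z w : ℂ} (h : IsSumRU n z) (hw : IsRU w) :
    IsSumRU (n + 1) (w + z) := by
  obtain ⟨f, hf, hs⟩ := h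
  refine ⟨Fin.cons w f, ?_, ?_⟩
  · intro i
    refine Fin.cases ?_ ?_ i
    · exact hw
    · intro j; exact hf j
  · rw [Fin.sum_univ_succ]
    simp [hs]

theorem IsSumRU.add_two {n : ℕ} {z : ℂ} (h : IsSumRU n z) : IsSumRU (n + 2) z :=
  ((h.add_one IsRU.one).add_one IsRU.neg_one).of_eq (by ring)

theorem IsSumRU.add_even {n : ℕ} {z : ℂ} (h : IsSumRU n z) (k : ℕ) : IsSumRU (n + 2 * k) z := by
  induction k with
  | zero => exact h
  | succ k ih => exact ih.add_two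

/-- from two and three summands to any number `n ≥ 2` of summands -/
theorem IsSumRU.all {z : ℂ} (h2 : IsSumRU 2 z) (h3 : IsSumRU 3 z) {n : ℕ} (hn : 2 ≤ n) :
    IsSumRU n z := by
  rcases Nat.even_or_odd' n with ⟨k, hk | hk⟩
  · obtain ⟨j, rfl⟩ : ∃ j, k = j + 1 := ⟨k - 1, by omega⟩
    have := h2.add_even j
    rwa [show 2 + 2 * j = n by omega] at this
  · obtain ⟨j, rfl⟩ : ∃ j, k = j + 1 := ⟨k - 1, by omega⟩
    have := h3.add_even j
    rwa [show 3 + 2 * j = n by omega] at this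

theorem two_cos (θ : ℝ) : ((2 * Real.cos θ : ℝ) : ℂ) =
    Complex.exp ((θ : ℂ) * Complex.I) + Complex.exp (((-θ : ℝ) : ℂ) * Complex.I) := by
  push_cast
  rw [Complex.cos]
  ring_nf

theorem sum_cos {w : ℂ} (hw : IsRU w) {n : ℕ} {z : ℂ} (h : IsSumRU n z) (j : ℤ) (k : ℕ)
    (hk : 0 < k) : IsSumRU (n + 2) (w * ((2 * Real.cos (2 * Real.pi * j / k) : ℝ) : ℂ) + z) := by
  have e := two_cos (2 * Real.pi * j / k)
  have h1 := isRU_exp j k hk
  have h2 := isRU_exp (-j) k hk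
  have e2 : (2 * Real.pi * ((-j : ℤ) : ℝ) / k : ℝ) = -(2 * Real.pi * j / k) := by
    push_cast; ring
  rw [e2] at h2
  rw [e]
  exact ((h.add_one (hw.mul h2)).add_one (hw.mul h1)).of_eq (by ring)

/-- `0`, roots of unity and golden multiples of roots of unity are sums of `n` roots of unity -/
theorem sum_zero {n : ℕ} (hn : 2 ≤ n) : IsSumRU n 0 := by
  refine IsSumRU.all (IsSumRU.zero.add_two) ?_ hn
  -- 1 + 2 cos (2 pi / 3) = 0
  have h := sum_cos IsRU.one ((IsSumRU.zero).add_one IsRU.one) 1 3 (by norm_num)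
  refine h.of_eq ?_
  have : Real.cos (2 * Real.pi * ((1 : ℤ) : ℝ) / ((3 : ℕ) : ℝ)) = -(1 / 2) := by
    have e : 2 * Real.pi * ((1 : ℤ) : ℝ) / ((3 : ℕ) : ℝ) = Real.pi - Real.pi / 3 := by
      push_cast; ring
    rw [e, Real.cos_pi_sub, Real.cos_pi_div_three]
  rw [this]
  push_cast
  ring

theorem sum_ru {w : ℂ} (hw : IsRU w) {n : ℕ} (hn : 2 ≤ n) : IsSumRU n w := by
  refine IsSumRU.all ?_ ?_ hn
  · -- w = w * 2 cos (2 pi / 6)
    have h := sum_cos hw IsSumRU.zero 1 6 (by norm_num)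
    refine h.of_eq ?_
    have : Real.cos (2 * Real.pi * ((1 : ℤ) : ℝ) / ((6 : ℕ) : ℝ)) = 1 / 2 := by
      have e : 2 * Real.pi * ((1 : ℤ) : ℝ) / ((6 : ℕ) : ℝ) = Real.pi / 3 := by
        push_cast; ring
      rw [e, Real.cos_pi_div_three]
    rw [this]
    push_cast
    ring
  · exact ((IsSumRU.zero.add_two).add_one hw).of_eq (by ring)

theorem cos_10 : Real.cos (2 * Real.pi * ((1 : ℤ) : ℝ) / ((10 : ℕ) : ℝ)) = (1 + √5) / 4 := by
  have e : 2 * Real.pi * ((1 : ℤ) : ℝ) / ((10 : ℕ) : ℝ) = Real.pi / 5 := by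
    push_cast; ring
  rw [e, Real.cos_pi_div_five]

theorem cos_5 : Real.cos (2 * Real.pi * ((1 : ℤ) : ℝ) / ((5 : ℕ) : ℝ)) = (√5 - 1) / 4 := by
  have e : 2 * Real.pi * ((1 : ℤ) : ℝ) / ((5 : ℕ) : ℝ) = 2 * (Real.pi / 5) := by
    push_cast; ring
  have h5 : √5 ^ 2 = 5 := Real.sq_sqrt (by norm_num)
  rw [e, Real.cos_two_mul, Real.cos_pi_div_five]
  linear_combination (1 / 8 : ℝ) * h5

theorem sum_golden_big {w : ℂ} (hw : IsRU w) {n : ℕ} (hn : 2 ≤ n) :
    IsSumRU n (w * (((1 + √5) / 2 : ℝ) : ℂ)) := by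
  refine IsSumRU.all ?_ ?_ hn
  · refine (sum_cos hw IsSumRU.zero 1 10 (by norm_num)).of_eq ?_
    rw [cos_10]; push_cast; ring
  · refine (sum_cos hw (IsSumRU.zero.add_one hw) 1 5 (by norm_num)).of_eq ?_
    rw [cos_5]; push_cast; ring

theorem sum_golden_small {w : ℂ} (hw : IsRU w) {n : ℕ} (hn : 2 ≤ n) :
    IsSumRU n (w * (((√5 - 1) / 2 : ℝ) : ℂ)) := by
  refine IsSumRU.all ?_ ?_ hn
  · refine (sum_cos hw IsSumRU.zero 1 5 (by norm_num)).of_eq ?_
    rw [cos_5]; push_cast; ring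
  · refine (sum_cos hw (IsSumRU.zero.add_one hw.neg) 1 10 (by norm_num)).of_eq ?_
    rw [cos_10]; push_cast; ring

/-! ### the pointwise statements -/

section
variable {K : Type} [Field K] [NumberField K]

/-- all conjugates of absolute value one: a root of unity -/
theorem ru_of_norm {x : K} (hx : IsIntegral ℤ x) (h : ∀ τ : K →+* ℂ, ‖τ x‖ = 1) :
    ∃ m : ℕ, 0 < m ∧ x ^ m = 1 := by
  obtain ⟨m, hm, h⟩ := NumberField.Embeddings.pow_eq_one_of_norm_eq_one K ℂ hx h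
  exact ⟨m, hm, h⟩

theorem norm_sq_eq {c : K →+* K} (hc : ∀ (τ : K →+* ℂ) (x : K), τ (c x) = (starRingEnd ℂ) (τ x))
    (x : K) (τ : K →+* ℂ) : τ (x * c x) = ((‖τ x‖ ^ 2 : ℝ) : ℂ) := by
  rw [map_mul, hc, Complex.mul_conj, Complex.normSq_eq_norm_sq]

theorem totPos {c : K →+* K} (hc : ∀ (τ : K →+* ℂ) (x : K), τ (c x) = (starRingEnd ℂ) (τ x))
    {x : K} (hx : x ≠ 0) : TotPos (x * c x) := by
  intro τ
  rw [norm_sq_eq hc x τ]
  refine ⟨Complex.ofReal_im _, ?_⟩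
  rw [Complex.ofReal_re]
  have : 0 < ‖τ x‖ := norm_pos_iff.2 ((map_ne_zero τ).2 hx)
  positivity

theorem int_conj {c : K →+* K} {x : K} (hx : IsIntegral ℤ x) : IsIntegral ℤ (x * c x) :=
  hx.mul (map_isIntegral_int c hx)

theorem ru_of_one {c : K →+* K} (hc : ∀ (τ : K →+* ℂ) (x : K), τ (c x) = (starRingEnd ℂ) (τ x))
    {x : K} (hx : IsIntegral ℤ x) (h : x * c x = 1) : ∃ m : ℕ, 0 < m ∧ x ^ m = 1 := by
  apply ru_of_norm hx
  intro τ
  have h1 := norm_sq_eq hc x τ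
  rw [h, map_one] at h1
  have h2 : ‖τ x‖ ^ 2 = 1 := by exact_mod_cast h1.symm
  nlinarith [norm_nonneg (τ x)]

/-- the golden case -/
theorem golden_case {c : K →+* K}
    (hc : ∀ (τ : K →+* ℂ) (x : K), τ (c x) = (starRingEnd ℂ) (τ x))
    {x : K} (hx : IsIntegral ℤ x) (h : (x * c x) ^ 2 - 3 * (x * c x) + 1 = 0)
    (τ : K →+* ℂ) : ∃ w : ℂ, IsRU w ∧
      (τ x = w * (((1 + √5) / 2 : ℝ) : ℂ) ∨ τ x = w * (((√5 - 1) / 2 : ℝ) : ℂ)) := by
  set b := x * c x with hb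
  have hbi : IsIntegral ℤ b := int_conj hx
  have h3 : IsIntegral ℤ (((3 : ℤ) : K)) := isIntegral_algebraMap
  have h3i : IsIntegral ℤ (3 - b) := by
    have := h3.sub hbi
    simpa using this
  have hu : b * (3 - b) = 1 := by linear_combination -h
  -- u = x ^ 2 * (3 - b)
  have hui : IsIntegral ℤ (x ^ 2 * (3 - b)) := (hx.pow 2).mul h3i
  have hun : ∀ φ : K →+* ℂ, ‖φ (x ^ 2 * (3 - b))‖ = 1 := by
    intro φ
    have e1 : φ b = ((‖φ x‖ ^ 2 : ℝ) : ℂ) := norm_sq_eq hc x φ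
    have e2 : ‖φ b‖ = ‖φ x‖ ^ 2 := by
      rw [e1, Complex.norm_real, Real.norm_eq_abs, abs_of_nonneg (sq_nonneg _)]
    rw [map_mul, map_pow, norm_mul, norm_pow, ← e2, ← norm_mul, ← map_mul, hu, map_one, norm_one]
  obtain ⟨m, hm, hum⟩ := ru_of_norm hui hun
  have hur : IsRU (τ (x ^ 2 * (3 - b))) := ⟨m, hm, by rw [← map_pow, hum, map_one]⟩
  set t := ‖τ x‖ ^ 2 with ht
  have e1 : τ b = ((t : ℝ) : ℂ) := norm_sq_eq hc x τ
  have h5 : √5 ^ 2 = 5 := Real.sq_sqrt (by norm_num)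
  have h50 : 0 ≤ √5 := Real.sqrt_nonneg 5
  have h51 : 2 < √5 := by
    rw [Real.lt_sqrt (by norm_num)]; norm_num
  have hq : t ^ 2 - 3 * t + 1 = 0 := by
    have h1 := congrArg τ h
    simp only [map_add, map_sub, map_mul, map_pow, map_one, map_ofNat, map_zero] at h1
    have h2 : (b : K) = x * c x := hb
    have h3 : τ x * τ (c x) = ((t : ℝ) : ℂ) := by rw [← map_mul, ← hb]; exact e1
    rw [e1] at h1
    exact_mod_cast h1
  have hsp : (t - ((1 + √5) / 2) ^ 2) * (t - ((√5 - 1) / 2) ^ 2) = 0 := by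
    linear_combination hq + (-t / 2 + (√5 ^ 2 + 3) / 16) * h5
  -- general: if t = y ^ 2 with y > 0 then w = τ x / y
  have gen : ∀ y : ℝ, 0 < y → t = y ^ 2 → ∃ w : ℂ, IsRU w ∧ τ x = w * ((y : ℝ) : ℂ) := by
    intro y hy hty
    have hy0 : ((y : ℝ) : ℂ) ≠ 0 := by exact_mod_cast hy.ne'
    refine ⟨τ x / (y : ℂ), ?_, by field_simp⟩
    apply IsRU.of_pow (k := 2) (by norm_num)
    have e3 : (τ x / (y : ℂ)) ^ 2 = τ (x ^ 2 * (3 - b)) := by
      have h6 : τ b * τ (3 - b) = 1 := by rw [← map_mul, hu, map_one]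
      rw [div_pow, map_mul, map_pow]
      rw [e1, hty] at h6
      push_cast at h6
      have h7 : τ (3 - b) = 1 / ((y : ℝ) : ℂ) ^ 2 := by
        rw [eq_div_iff (pow_ne_zero 2 hy0)]
        linear_combination h6
      rw [h7]
      ring
    rw [e3]
    exact hur
  rcases mul_eq_zero.1 hsp with h6 | h6
  · obtain ⟨w, hw, e⟩ := gen ((1 + √5) / 2) (by positivity) (by linarith)
    exact ⟨w, hw, Or.inl e⟩
  · obtain ⟨w, hw, e⟩ := gen ((√5 - 1) / 2) (by linarith) (by linarith)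
    exact ⟨w, hw, Or.inr e⟩

/-- no square root of five -/
theorem not_golden (h5 : ¬ ∃ s : K, s ^ 2 = 5) (b : K) : b ^ 2 - 3 * b + 1 ≠ 0 := by
  intro h
  exact h5 ⟨2 * b - 3, by linear_combination 4 * h⟩

theorem sum_norm_sq {c : K →+* K}
    (hc : ∀ (τ : K →+* ℂ) (x : K), τ (c x) = (starRingEnd ℂ) (τ x)) (x : K) :
    ∑ τ : K →+* ℂ, ‖τ x‖ ^ 2 = ∑ τ : K →+* ℂ, (τ (x * c x)).re := by
  apply Finset.sum_congr rfl
  intro τ _
  rw [norm_sq_eq hc x τ, Complex.ofReal_re]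

theorem bad_53 {c : K →+* K}
    (hc : ∀ (τ : K →+* ℂ) (x : K), τ (c x) = (starRingEnd ℂ) (τ x))
    {x : K} (hx : IsIntegral ℤ x) (h0 : x ≠ 0) (h1 : x * c x ≠ 1)
    (hg : (x * c x) ^ 2 - 3 * (x * c x) + 1 ≠ 0) :
    5 / 3 * (Fintype.card (K →+* ℂ) : ℝ) ≤ ∑ τ : K →+* ℂ, ‖τ x‖ ^ 2 := by
  rw [sum_norm_sq hc]
  exact sum_ge (int_conj hx) (totPos hc h0) h1 hg

theorem bad_32 {c : K →+* K}
    (hc : ∀ (τ : K →+* ℂ) (x : K), τ (c x) = (starRingEnd ℂ) (τ x))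
    {x : K} (hx : IsIntegral ℤ x) (h0 : x ≠ 0) (h1 : x * c x ≠ 1) :
    3 / 2 * (Fintype.card (K →+* ℂ) : ℝ) ≤ ∑ τ : K →+* ℂ, ‖τ x‖ ^ 2 := by
  by_cases hg : (x * c x) ^ 2 - 3 * (x * c x) + 1 = 0
  · rw [sum_norm_sq hc, sum_golden hg]
  · have := bad_53 hc hx h0 h1 hg
    have hd : 0 ≤ (Fintype.card (K →+* ℂ) : ℝ) := Nat.cast_nonneg _
    linarith

theorem rat_int {x : K} (hx : IsIntegral ℤ x) {q : ℚ} (h : x = (q : K)) : ∃ m : ℤ, q = m := by
  have h1 : IsIntegral ℤ q := by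
    rw [h] at hx
    have : IsIntegral ℤ (algebraMap ℚ K q) := by rwa [eq_ratCast]
    exact (isIntegral_algebraMap_iff (algebraMap ℚ K).injective).1 this
  obtain ⟨m, hm⟩ := IsIntegrallyClosed.isIntegral_iff.1 h1
  exact ⟨m, by rw [← hm]; simp⟩

theorem bad_2 {c : K →+* K}
    (hc : ∀ (τ : K →+* ℂ) (x : K), τ (c x) = (starRingEnd ℂ) (τ x))
    {x : K} (hx : IsIntegral ℤ x) (h0 : x ≠ 0) (h1 : x * c x ≠ 1)
    (hq : ∃ q : ℚ, ∀ τ : K →+* ℂ, ‖τ x‖ ^ 2 = (q : ℝ)) :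
    2 * (Fintype.card (K →+* ℂ) : ℝ) ≤ ∑ τ : K →+* ℂ, ‖τ x‖ ^ 2 := by
  obtain ⟨q, hq⟩ := hq
  obtain ⟨τ0⟩ : Nonempty (K →+* ℂ) := inferInstance
  have hb : x * c x = (q : K) := by
    apply τ0.injective
    rw [norm_sq_eq hc x τ0, hq τ0, map_ratCast]
    simp
  obtain ⟨m, hm⟩ := rat_int (int_conj hx) hb
  have hpos : 0 < q := by
    have h2 : 0 < ‖τ0 x‖ := norm_pos_iff.2 ((map_ne_zero τ0).2 h0)
    have h3 : (0 : ℝ) < (q : ℝ) := by rw [← hq τ0]; positivity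
    exact_mod_cast h3
  have hne : q ≠ 1 := by
    rintro rfl
    apply h1
    rw [hb]; simp
  have h2 : 2 ≤ q := by
    subst hm
    have h3 : 0 < m := by exact_mod_cast hpos
    have h4 : m ≠ 1 := by
      rintro rfl
      exact hne (by simp)
    have : 2 ≤ m := by omega
    exact_mod_cast this
  have h3 : (2 : ℝ) ≤ (q : ℝ) := by exact_mod_cast h2
  calc 2 * (Fintype.card (K →+* ℂ) : ℝ) ≤ ∑ τ : K →+* ℂ, (q : ℝ) := by
        rw [Finset.sum_const, nsmul_eq_mul, Finset.card_univ]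
        have hd : 0 ≤ (Fintype.card (K →+* ℂ) : ℝ) := Nat.cast_nonneg _
        nlinarith
    _ = ∑ τ : K →+* ℂ, ‖τ x‖ ^ 2 := Finset.sum_congr rfl (fun τ _ => (hq τ).symm)

theorem bad_4 {x : K} (hx : IsIntegral ℤ x) (hq : ∃ q : ℚ, x = (q : K))
    (h : ¬ (x = 0 ∨ x = 1 ∨ x = -1)) :
    4 * (Fintype.card (K →+* ℂ) : ℝ) ≤ ∑ τ : K →+* ℂ, ‖τ x‖ ^ 2 := by
  obtain ⟨q, hq⟩ := hq
  obtain ⟨m, rfl⟩ := rat_int hx hq
  have hxm : x = (m : K) := by rw [hq]; simp
  have hm : 2 ≤ |m| := by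
    by_contra hlt
    push Not at hlt
    apply h
    have h1 : -1 ≤ m ∧ m ≤ 1 := by
      constructor <;> [have := neg_abs_le m; have := le_abs_self m] <;> omega
    obtain ⟨h1, h2⟩ := h1
    interval_cases m
    · right; right; rw [hxm]; simp
    · left; rw [hxm]; simp
    · right; left; rw [hxm]; simp
  have h4 : ∀ τ : K →+* ℂ, (4 : ℝ) ≤ ‖τ x‖ ^ 2 := by
    intro τ
    have h5 : ‖τ x‖ = |(m : ℝ)| := by
      rw [hxm, map_intCast]
      exact Complex.norm_intCast m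
    rw [h5]
    have : (2 : ℝ) ≤ |(m : ℝ)| := by exact_mod_cast hm
    nlinarith
  calc 4 * (Fintype.card (K →+* ℂ) : ℝ) = ∑ τ : K →+* ℂ, (4 : ℝ) := by
        rw [Finset.sum_const, nsmul_eq_mul, Finset.card_univ]; ring
    _ ≤ _ := Finset.sum_le_sum (fun τ _ => h4 τ)

end

/-! ### `GL_3` -/

theorem gl3_roots {α : Fin 3 → ℂ} {A : ℂ} {M w : ℕ} (hM : 0 < M) (hw : 0 < w)
    (ht : ∑ i, α i = A)
    (hu : ∃ σ : Equiv.Perm (Fin 3), ∀ i, α (σ i) * (starRingEnd ℂ) (α i) = 1)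
    (hω : (∏ i, α i) ^ M = 1) (hA : A = 0 ∨ A ^ w = 1) : ∀ i, (α i) ^ (12 * M * w) = 1 := by
  set W := ∏ i, α i with hW
  have hWr : IsRU W := ⟨M, hM, hω⟩
  have hW0 : W ≠ 0 := hWr.ne_zero
  have hne : ∀ i, α i ≠ 0 := by
    intro i h
    apply hW0
    rw [hW]
    exact Finset.prod_eq_zero (Finset.mem_univ i) h
  -- conj A = sum of inverses
  obtain ⟨σ, hσ⟩ := hu
  have hconj : (starRingEnd ℂ) A = ∑ i, (α i)⁻¹ := by
    rw [← ht, map_sum]
    rw [← Equiv.sum_comp σ (fun i => (α i)⁻¹)]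
    apply Finset.sum_congr rfl
    intro i _
    have := hσ i
    field_simp [hne (σ i)]
    linear_combination this
  have hW3 : W = α 0 * α 1 * α 2 := by rw [hW, Fin.prod_univ_three]
  have hA3 : A = α 0 + α 1 + α 2 := by rw [← ht, Fin.sum_univ_three]
  have hc3 : (starRingEnd ℂ) A * W = α 0 * α 1 + α 0 * α 2 + α 1 * α 2 := by
    rw [hconj, Fin.sum_univ_three, hW3]
    have h0 := hne 0
    have h1 := hne 1
    have h2 := hne 2
    field_simp
    ring
  have hroot : ∀ i, α i ^ 3 - A * α i ^ 2 + (starRingEnd ℂ) A * W * α i - W = 0 := by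
    intro i
    rw [hc3, hA3, hW3]
    fin_cases i <;> simp <;> ring
  intro i
  have hr := hroot i
  rcases hA with hA | hA
  · rw [hA] at hr
    simp at hr
    have : α i ^ 3 = W := by linear_combination hr
    calc α i ^ (12 * M * w) = ((α i ^ 3) ^ M) ^ (4 * w) := by
          rw [← pow_mul, ← pow_mul]; congr 1; ring
      _ = 1 := by rw [this, hω, one_pow]
  · have hAr : IsRU A := ⟨w, hw, hA⟩
    have hA0 := hAr.ne_zero
    have hcA : (starRingEnd ℂ) A = A⁻¹ := by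
      have h1 : A * (starRingEnd ℂ) A = 1 := by
        rw [Complex.mul_conj, Complex.normSq_eq_norm_sq, hAr.norm]; simp
      exact eq_inv_of_mul_eq_one_right h1
    have hf : (α i - A) * (α i ^ 2 + W * A⁻¹) = 0 := by
      rw [hcA] at hr
      have : A * A⁻¹ = 1 := mul_inv_cancel₀ hA0
      linear_combination hr + (-W) * this
    rcases mul_eq_zero.1 hf with h | h
    · rw [sub_eq_zero.1 h]
      calc A ^ (12 * M * w) = (A ^ w) ^ (12 * M) := by rw [← pow_mul]; congr 1; ring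
        _ = 1 := by rw [hA, one_pow]
    · have e2 : α i ^ 2 = -(W * A⁻¹) := by linear_combination h
      calc α i ^ (12 * M * w) = ((α i ^ 2) ^ 2) ^ (3 * M * w) := by
            rw [← pow_mul, ← pow_mul]; congr 1; ring
        _ = ((W ^ M) ^ (6 * w)) * ((A ^ w) ^ (6 * M))⁻¹ := by
            rw [e2]
            rw [neg_sq, mul_pow, inv_pow, mul_pow, inv_pow, ← pow_mul, ← pow_mul, ← pow_mul,
              ← pow_mul]
            congr 2
            · ring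
            · congr 1; ring
        _ = 1 := by rw [hω, hA, one_pow, one_pow]; simp

/-! ### bounded exponent of the roots of unity of `K` -/

theorem exists_exponent (K : Type) [Field K] [NumberField K] :
    ∃ w : ℕ, 0 < w ∧ ∀ x : K, (∃ m : ℕ, 0 < m ∧ x ^ m = 1) → x ^ w = 1 := by
  classical
  have hfin := NumberField.Embeddings.finite_of_norm_le K ℂ 1
  set T := hfin.toFinset.filter (fun x => 0 < orderOf x) with hT
  refine ⟨∏ x ∈ T, orderOf x, Finset.prod_pos (fun x hx => (Finset.mem_filter.1 hx).2), ?_⟩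
  rintro x ⟨m, hm, hx⟩
  have hmem : x ∈ T := by
    rw [hT, Finset.mem_filter, Set.Finite.mem_toFinset]
    refine ⟨⟨?_, ?_⟩, ?_⟩
    · exact IsIntegral.of_pow hm (by rw [hx]; exact isIntegral_one)
    · intro φ
      have : IsRU (φ x) := ⟨m, hm, by rw [← map_pow, hx, map_one]⟩
      exact this.norm.le
    · exact orderOf_pos_iff.2 (isOfFinOrder_iff_pow_eq_one.2 ⟨m, hm, hx⟩)
  obtain ⟨k, hk⟩ := Finset.dvd_prod_of_mem orderOf hmem
  rw [hk, pow_mul, pow_orderOf_eq_one, one_pow]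

theorem LowerDensityGE.mono {S T : Set ℕ} {δ : ℝ} (h : LowerDensityGE S δ)
    (hST : ∀ p : ℕ, p.Prime → p ∈ S → p ∈ T) : LowerDensityGE T δ := by
  intro ε hε
  filter_upwards [h ε hε] with x hx
  refine hx.trans ?_
  have : primesUpTo S x ⊆ primesUpTo T x := by
    intro p hp
    simp only [primesUpTo, Finset.mem_filter] at hp ⊢
    exact ⟨hp.1, hp.2.1, hST p hp.2.1 hp.2.2⟩
  exact_mod_cast Finset.card_le_card this

/-- finitely many values outside a set of primes of small density -/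
theorem finite_values {n : ℕ} {K : Type} [Field K] [NumberField K] {E : Finset ℕ} {a : ℕ → K}
    {α : (K →+* ℂ) → ℕ → Fin n → ℂ} (h : ArtinSystem n K E a α) (ε : ℝ) (hε : 0 < ε) :
    ∃ Y : Finset K, LowerDensityGE {p | p ∉ E ∧ a p ∈ Y} (1 - ε) := by
  classical
  set d : ℝ := (Fintype.card (K →+* ℂ) : ℝ) with hd
  have hd0 : 0 ≤ d := Nat.cast_nonneg _
  have hfin := NumberField.Embeddings.finite_of_norm_le K ℂ (d / ε + 1)
  refine ⟨hfin.toFinset, ?_⟩
  have hb := density_of_bad h {p | a p ∈ hfin.toFinset} (1 / ε) (by positivity) ?_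
  · simpa using hb
  · intro p hp hE hnot
    simp only [Set.mem_ofPred_eq, Set.Finite.mem_toFinset, not_and, not_forall, not_le] at hnot
    obtain ⟨φ, hφ⟩ := hnot (h.integral p hp hE)
    have h1 : d / ε ≤ ‖φ (a p)‖ ^ 2 := by
      have h2 : 0 ≤ d / ε := by positivity
      nlinarith
    calc 1 / ε * (Fintype.card (K →+* ℂ) : ℝ) = d / ε := by rw [← hd]; ring
      _ ≤ ‖φ (a p)‖ ^ 2 := h1
      _ ≤ ∑ τ : K →+* ℂ, ‖τ (a p)‖ ^ 2 :=
          Finset.single_le_sum (f := fun τ : K →+* ℂ => ‖τ (a p)‖ ^ 2)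
            (fun τ _ => sq_nonneg _) (Finset.mem_univ φ)

/-- the primes at which the Hecke trace is zero or a root of unity -/
def Good {K : Type} [Field K] (a : ℕ → K) : Set ℕ :=
  {p | a p = 0 ∨ ∃ m : ℕ, 0 < m ∧ a p ^ m = 1}

theorem main {n : ℕ} {K : Type} [Field K] [NumberField K] {E : Finset ℕ} {a : ℕ → K}
    {α : (K →+* ℂ) → ℕ → Fin n → ℂ} (h : ArtinSystem n K E a α) :
    LowerDensityGE {p | p ∉ E ∧ p ∈ Good a} (1 / 3) ∧
    ((¬ ∃ s : K, s ^ 2 = 5) → LowerDensityGE {p | p ∉ E ∧ p ∈ Good a} (2 / 5)) ∧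
    ((∀ p : ℕ, p.Prime → p ∉ E → ∃ q : ℚ, ∀ τ : K →+* ℂ, ‖τ (a p)‖ ^ 2 = (q : ℝ)) →
      LowerDensityGE {p | p ∉ E ∧ p ∈ Good a} (1 / 2)) ∧
    ((∀ p : ℕ, p.Prime → p ∉ E → ∃ q : ℚ, a p = (q : K)) →
      LowerDensityGE {p | p ∉ E ∧ (a p = 0 ∨ a p = 1 ∨ a p = -1)} (3 / 4)) ∧
    (2 ≤ n → LowerDensityGE {p | p ∉ E ∧ ∀ τ : K →+* ℂ, IsSumRU n (τ (a p))} (2 / 5)) ∧
    (n = 3 → ∃ N : ℕ, 0 < N ∧ ∀ p : ℕ, p.Prime → p ∉ E → p ∈ Good a →
      ∀ (τ : K →+* ℂ) (i : Fin n), α τ p i ^ N = 1) ∧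
    (∀ ε : ℝ, 0 < ε → ∃ Y : Finset K, LowerDensityGE {p | p ∉ E ∧ a p ∈ Y} (1 - ε)) := by
  obtain ⟨c, hc⟩ := h.cm
  refine ⟨?_, ?_, ?_, ?_, ?_, ?_, fun ε hε => finite_values h ε hε⟩
  · have hb := density_of_bad h (Good a) (3 / 2) (by norm_num) ?_
    · convert hb using 1; norm_num
    · intro p hp hE hG
      simp only [Good, Set.mem_ofPred_eq, not_or] at hG
      have hi := h.integral p hp hE
      exact bad_32 hc hi hG.1 (fun h1 => hG.2 (ru_of_one hc hi h1))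
  · intro h5
    have hb := density_of_bad h (Good a) (5 / 3) (by norm_num) ?_
    · convert hb using 1; norm_num
    · intro p hp hE hG
      simp only [Good, Set.mem_ofPred_eq, not_or] at hG
      have hi := h.integral p hp hE
      exact bad_53 hc hi hG.1 (fun h1 => hG.2 (ru_of_one hc hi h1)) (not_golden h5 _)
  · intro hq
    have hb := density_of_bad h (Good a) 2 (by norm_num) ?_
    · convert hb using 1; norm_num
    · intro p hp hE hG
      simp only [Good, Set.mem_ofPred_eq, not_or] at hG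
      have hi := h.integral p hp hE
      exact bad_2 hc hi hG.1 (fun h1 => hG.2 (ru_of_one hc hi h1)) (hq p hp hE)
  · intro hq
    have hb := density_of_bad h {p | a p = 0 ∨ a p = 1 ∨ a p = -1} 4 (by norm_num) ?_
    · rw [show (3 / 4 : ℝ) = 1 - 1 / 4 by norm_num]; exact hb
    · intro p hp hE hG
      exact bad_4 (h.integral p hp hE) (hq p hp hE) hG
  · intro hn
    have hb := density_of_bad h {p | ∀ τ : K →+* ℂ, IsSumRU n (τ (a p))} (5 / 3)
      (by norm_num) ?_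
    · rw [show (2 / 5 : ℝ) = 1 - 1 / (5 / 3) by norm_num]; exact hb
    · intro p hp hE hG
      have hi := h.integral p hp hE
      apply bad_53 hc hi
      · intro h0
        apply hG
        intro τ
        rw [h0, map_zero]
        exact sum_zero hn
      · intro h1
        apply hG
        intro τ
        obtain ⟨m, hm, hx⟩ := ru_of_one hc hi h1
        exact sum_ru ⟨m, hm, by rw [← map_pow, hx, map_one]⟩ hn
      · intro hg
        apply hG
        intro τ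
        obtain ⟨w, hw, e | e⟩ := golden_case hc hi hg τ
        · rw [e]; exact sum_golden_big hw hn
        · rw [e]; exact sum_golden_small hw hn
  · intro hn
    subst hn
    obtain ⟨M, hM, hcen⟩ := h.central
    obtain ⟨w, hw, hexp⟩ := exists_exponent K
    refine ⟨12 * M * w, by positivity, ?_⟩
    intro p hp hE hG τ i
    apply gl3_roots hM hw (h.trace τ p hp hE) (h.unitary τ p hp hE) (hcen τ p hp hE)
    rcases hG with hG | hG
    · left; rw [hG, map_zero]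
    · right; rw [← map_pow, hexp _ hG, map_one]

end Pool.Agent.TS
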