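import Mathlib

/-!
The auxiliary function for totally positive algebraic integers:
`t - 0.65 log t - 0.70 log|t-1| - 0.08 log|t-2| - 0.22 log|t^2-3t+1| - 0.09 log|t^3-5t^2+6t-1| >= 1.67`
for `t > 0`.
-/

set_option autoImplicit false

namespace Pool.Agent.TS

open Real

theorem tan_line {t s r : ℝ} (h : (t < r ∧ s < r) ∨ (r < t ∧ r < s)) :
    Real.log |t - r| ≤ Real.log |s - r| + (t - s) * (1 / (s - r)) := by
  have hs : s - r ≠ 0 := by
    rcases h with h | h
    · exact (sub_neg.2 h.2).ne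
    · exact (sub_pos.2 h.2).ne'
  have ht : t - r ≠ 0 := by
    rcases h with h | h
    · exact (sub_neg.2 h.1).ne
    · exact (sub_pos.2 h.1).ne'
  have hu : 0 < (t - r) / (s - r) := by
    rcases h with h | h
    · exact div_pos_of_neg_of_neg (sub_neg.2 h.1) (sub_neg.2 h.2)
    · exact div_pos (sub_pos.2 h.1) (sub_pos.2 h.2)
  have h1 : Real.log ((t - r) / (s - r)) ≤ (t - r) / (s - r) - 1 :=
    Real.log_le_sub_one_of_pos hu
  have h2 : Real.log ((t - r) / (s - r)) = Real.log |t - r| - Real.log |s - r| := by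
    rw [← Real.log_abs ((t - r) / (s - r)), abs_div, Real.log_div (abs_ne_zero.2 ht)
      (abs_ne_zero.2 hs)]
  have h3 : (t - r) / (s - r) - 1 = (t - s) * (1 / (s - r)) := by
    field_simp
    ring
  rw [h2, h3] at h1
  linarith

/-- the cubic and its roots -/
theorem cubic_roots : ∃ r1 r2 r3 : ℝ, 0.198 < r1 ∧ r1 < 0.199 ∧ 1.554 < r2 ∧ r2 < 1.556 ∧
    3.246 < r3 ∧ r3 < 3.248 ∧
    ∀ x : ℝ, x ^ 3 - 5 * x ^ 2 + 6 * x - 1 = (x - r1) * (x - r2) * (x - r3) := by
  have hc : Continuous (fun x : ℝ => x ^ 3 - 5 * x ^ 2 + 6 * x - 1) := by fun_prop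
  have h1 : ∃ r ∈ Set.Ioo (0.198 : ℝ) 0.199, r ^ 3 - 5 * r ^ 2 + 6 * r - 1 = 0 := by
    have := intermediate_value_Ioo (a := (0.198 : ℝ)) (b := 0.199) (by norm_num)
      (f := fun x : ℝ => x ^ 3 - 5 * x ^ 2 + 6 * x - 1) hc.continuousOn
    obtain ⟨r, hr, h⟩ := this (show (0 : ℝ) ∈ _ from ⟨by norm_num, by norm_num⟩)
    exact ⟨r, hr, h⟩
  have h2 : ∃ r ∈ Set.Ioo (1.554 : ℝ) 1.556, r ^ 3 - 5 * r ^ 2 + 6 * r - 1 = 0 := by
    have := intermediate_value_Ioo' (a := (1.554 : ℝ)) (b := 1.556) (by norm_num)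
      (f := fun x : ℝ => x ^ 3 - 5 * x ^ 2 + 6 * x - 1) hc.continuousOn
    obtain ⟨r, hr, h⟩ := this (show (0 : ℝ) ∈ _ from ⟨by norm_num, by norm_num⟩)
    exact ⟨r, hr, h⟩
  have h3 : ∃ r ∈ Set.Ioo (3.246 : ℝ) 3.248, r ^ 3 - 5 * r ^ 2 + 6 * r - 1 = 0 := by
    have := intermediate_value_Ioo (a := (3.246 : ℝ)) (b := 3.248) (by norm_num)
      (f := fun x : ℝ => x ^ 3 - 5 * x ^ 2 + 6 * x - 1) hc.continuousOn
    obtain ⟨r, hr, h⟩ := this (show (0 : ℝ) ∈ _ from ⟨by norm_num, by norm_num⟩)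
    exact ⟨r, hr, h⟩
  obtain ⟨r1, ⟨a1, b1⟩, e1⟩ := h1
  obtain ⟨r2, ⟨a2, b2⟩, e2⟩ := h2
  obtain ⟨r3, ⟨a3, b3⟩, e3⟩ := h3
  refine ⟨r1, r2, r3, a1, b1, a2, b2, a3, b3, ?_⟩
  have d12 : r1 ^ 2 + r1 * r2 + r2 ^ 2 - 5 * (r1 + r2) + 6 = 0 := by
    have h : (r1 - r2) * (r1 ^ 2 + r1 * r2 + r2 ^ 2 - 5 * (r1 + r2) + 6) = 0 := by
      linear_combination e1 - e2
    rcases mul_eq_zero.1 h with h | h
    · exfalso; linarith
    · exact h
  have d13 : r1 ^ 2 + r1 * r3 + r3 ^ 2 - 5 * (r1 + r3) + 6 = 0 := by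
    have h : (r1 - r3) * (r1 ^ 2 + r1 * r3 + r3 ^ 2 - 5 * (r1 + r3) + 6) = 0 := by
      linear_combination e1 - e3
    rcases mul_eq_zero.1 h with h | h
    · exfalso; linarith
    · exact h
  have s1 : r1 + r2 + r3 = 5 := by
    have h : (r2 - r3) * (r1 + r2 + r3 - 5) = 0 := by linear_combination d12 - d13
    rcases mul_eq_zero.1 h with h | h
    · exfalso; linarith
    · linarith
  intro x
  have hr3 : r3 = 5 - r1 - r2 := by linarith
  subst hr3
  linear_combination (x - r1) * d12 + e1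

/-- the sum of the logarithms -/
noncomputable def LL (t : ℝ) : ℝ :=
  0.65 * Real.log |t| + 0.70 * Real.log |t - 1| + 0.08 * Real.log |t - 2| +
    0.22 * Real.log |t ^ 2 - 3 * t + 1| + 0.09 * Real.log |t ^ 3 - 5 * t ^ 2 + 6 * t - 1|

/-- slope -/
noncomputable def LS (s : ℝ) : ℝ :=
  0.65 * (1 / s) + 0.70 * (1 / (s - 1)) + 0.08 * (1 / (s - 2)) +
    0.22 * ((2 * s - 3) / (s ^ 2 - 3 * s + 1)) +
    0.09 * ((3 * s ^ 2 - 10 * s + 6) / (s ^ 3 - 5 * s ^ 2 + 6 * s - 1))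

theorem LL_tan {r1 r2 r3 g1 g2 : ℝ}
    (hc : ∀ x : ℝ, x ^ 3 - 5 * x ^ 2 + 6 * x - 1 = (x - r1) * (x - r2) * (x - r3))
    (hg : ∀ x : ℝ, x ^ 2 - 3 * x + 1 = (x - g1) * (x - g2))
    {t s : ℝ} (h0 : (t < 0 ∧ s < 0) ∨ (0 < t ∧ 0 < s))
    (h1 : (t < 1 ∧ s < 1) ∨ (1 < t ∧ 1 < s)) (h2 : (t < 2 ∧ s < 2) ∨ (2 < t ∧ 2 < s))
    (hg1 : (t < g1 ∧ s < g1) ∨ (g1 < t ∧ g1 < s)) (hg2 : (t < g2 ∧ s < g2) ∨ (g2 < t ∧ g2 < s))
    (hr1 : (t < r1 ∧ s < r1) ∨ (r1 < t ∧ r1 < s)) (hr2 : (t < r2 ∧ s < r2) ∨ (r2 < t ∧ r2 < s))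
    (hr3 : (t < r3 ∧ s < r3) ∨ (r3 < t ∧ r3 < s)) :
    LL t ≤ LL s + (t - s) * LS s := by
  have ne : ∀ {x y : ℝ}, ((t < y ∧ x < y) ∨ (y < t ∧ y < x)) → x - y ≠ 0 := by
    intro x y h
    rcases h with h | h
    · exact (sub_neg.2 h.2).ne
    · exact (sub_pos.2 h.2).ne'
  have ne' : ∀ {x y : ℝ}, ((t < y ∧ x < y) ∨ (y < t ∧ y < x)) → t - y ≠ 0 := by
    intro x y h
    rcases h with h | h
    · exact (sub_neg.2 h.1).ne
    · exact (sub_pos.2 h.1).ne'
  have T0 := tan_line h0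
  have T1 := tan_line h1
  have T2 := tan_line h2
  have G1 := tan_line hg1
  have G2 := tan_line hg2
  have R1 := tan_line hr1
  have R2 := tan_line hr2
  have R3 := tan_line hr3
  rw [sub_zero, sub_zero] at T0
  have eg : ∀ x : ℝ, x - g1 ≠ 0 → x - g2 ≠ 0 →
      Real.log |x ^ 2 - 3 * x + 1| = Real.log |x - g1| + Real.log |x - g2| := by
    intro x a b
    rw [hg, abs_mul, Real.log_mul (abs_ne_zero.2 a) (abs_ne_zero.2 b)]
  have ec : ∀ x : ℝ, x - r1 ≠ 0 → x - r2 ≠ 0 → x - r3 ≠ 0 →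
      Real.log |x ^ 3 - 5 * x ^ 2 + 6 * x - 1| =
        Real.log |x - r1| + Real.log |x - r2| + Real.log |x - r3| := by
    intro x a b c
    rw [hc, abs_mul, abs_mul, Real.log_mul (mul_ne_zero (abs_ne_zero.2 a) (abs_ne_zero.2 b))
      (abs_ne_zero.2 c), Real.log_mul (abs_ne_zero.2 a) (abs_ne_zero.2 b)]
  have sg : (2 * s - 3) / (s ^ 2 - 3 * s + 1) = 1 / (s - g1) + 1 / (s - g2) := by
    have a := ne hg1
    have b := ne hg2
    have e : g1 + g2 = 3 := by
      have h0 := hg 0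
      have h1 := hg 1
      linarith
    rw [hg]
    field_simp
    linear_combination e
  have sc : (3 * s ^ 2 - 10 * s + 6) / (s ^ 3 - 5 * s ^ 2 + 6 * s - 1) =
      1 / (s - r1) + 1 / (s - r2) + 1 / (s - r3) := by
    have a := ne hr1
    have b := ne hr2
    have c := ne hr3
    have k0 := hc 0
    have k1 := hc 1
    have k2 := hc (-1)
    have e1 : r1 + r2 + r3 = 5 := by linarith
    have e2 : r1 * r2 + r1 * r3 + r2 * r3 = 6 := by linarith
    rw [hc]
    field_simp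
    linear_combination 2 * s * e1 - e2
  unfold LL LS
  rw [eg t (ne' hg1) (ne' hg2), eg s (ne hg1) (ne hg2), ec t (ne' hr1) (ne' hr2) (ne' hr3),
    ec s (ne hr1) (ne hr2) (ne hr3), sg, sc]
  linarith

/-- numerical upper bound for `LL s` -/
theorem LL_num {s : ℝ} {a0 a1 a2 a3 a4 : ℝ} (M : ℝ) (h0 : |s| = a0) (h1 : |s - 1| = a1)
    (h2 : |s - 2| = a2) (h3 : |s ^ 2 - 3 * s + 1| = a3)
    (h4 : |s ^ 3 - 5 * s ^ 2 + 6 * s - 1| = a4)
    (p0 : 0 < a0) (p1 : 0 < a1) (p2 : 0 < a2) (p3 : 0 < a3) (p4 : 0 < a4)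
    (h : a0 ^ 65 * a1 ^ 70 * a2 ^ 8 * a3 ^ 22 * a4 ^ 9 ≤ Real.exp M) :
    LL s ≤ M / 100 := by
  have hl := Real.log_le_log (by positivity) h
  rw [Real.log_exp, Real.log_mul (by positivity) (by positivity),
    Real.log_mul (by positivity) (by positivity), Real.log_mul (by positivity) (by positivity),
    Real.log_mul (by positivity) (by positivity), Real.log_pow, Real.log_pow, Real.log_pow,
    Real.log_pow, Real.log_pow] at hl
  unfold LL
  rw [h0, h1, h2, h3, h4]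
  push_cast at hl
  linarith

theorem exp_neg_ge (n : ℕ) : (1 / (2.7182818286 : ℝ)) ^ n ≤ Real.exp (-(n : ℝ)) := by
  rw [Real.exp_neg, ← one_div, ← Real.exp_one_pow, one_div_pow]
  apply one_div_le_one_div_of_le (by positivity)
  exact pow_le_pow_left₀ (Real.exp_pos _).le Real.exp_one_lt_d9.le n

theorem exp_pos_ge (n : ℕ) : ((2.7182818283 : ℝ)) ^ n ≤ Real.exp (n : ℝ) := by
  rw [← Real.exp_one_pow]
  exact pow_le_pow_left₀ (by norm_num) Real.exp_one_gt_d9.le n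

theorem golden_roots : ∃ g1 g2 : ℝ, 0.381 < g1 ∧ g1 < 0.382 ∧ 2.618 < g2 ∧ g2 < 2.619 ∧
    ∀ x : ℝ, x ^ 2 - 3 * x + 1 = (x - g1) * (x - g2) := by
  have h5 : √5 ^ 2 = 5 := Real.sq_sqrt (by norm_num)
  have h0 : 0 ≤ √5 := Real.sqrt_nonneg 5
  refine ⟨(3 - √5) / 2, (3 + √5) / 2, by nlinarith, by nlinarith, by nlinarith, by nlinarith, ?_⟩
  intro x
  linear_combination (1 / 4 : ℝ) * h5

set_option maxHeartbeats 2000000 in
theorem aux5 (t : ℝ) (h0 : 0 < t) (h1 : t ≠ 1) (h2 : t ≠ 2) (hg : t ^ 2 - 3 * t + 1 ≠ 0)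
    (hc : t ^ 3 - 5 * t ^ 2 + 6 * t - 1 ≠ 0) : 1.67 + LL t ≤ t := by
  obtain ⟨r1, r2, r3, a1, b1, a2, b2, a3, b3, hcc⟩ := cubic_roots
  obtain ⟨g1, g2, c1, d1, c2, d2, hgg⟩ := golden_roots
  have hr1 : t ≠ r1 := by rintro rfl; apply hc; rw [hcc]; ring
  have hr2 : t ≠ r2 := by rintro rfl; apply hc; rw [hcc]; ring
  have hr3 : t ≠ r3 := by rintro rfl; apply hc; rw [hcc]; ring
  have hg1 : t ≠ g1 := by rintro rfl; apply hg; rw [hgg]; ring
  have hg2 : t ≠ g2 := by rintro rfl; apply hg; rw [hgg]; ring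
  rcases lt_or_gt_of_ne hr1 with x0 | x0
  · have T := LL_tan hcc hgg (t := t) (s := 0.14)
      (Or.inr ⟨h0, by norm_num⟩) (Or.inl ⟨by linarith, by linarith⟩)
      (Or.inl ⟨by linarith, by linarith⟩) (Or.inl ⟨by linarith, by linarith⟩)
      (Or.inl ⟨by linarith, by linarith⟩) (Or.inl ⟨by linarith, by linarith⟩)
      (Or.inl ⟨by linarith, by linarith⟩) (Or.inl ⟨by linarith, by linarith⟩)
    have N : LL 0.14 ≤ (-(156 : ℕ) : ℝ) / 100 := by
      apply LL_num (a0 := 0.14) (a1 := 0.86) (a2 := 1.86) (a3 := 0.5996) (a4 := 0.255256)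
      · rw [abs_of_pos (by norm_num)]
      · rw [abs_of_neg (by norm_num)]; norm_num
      · rw [abs_of_neg (by norm_num)]; norm_num
      · rw [abs_of_pos (by norm_num)]; norm_num
      · rw [abs_of_neg (by norm_num)]; norm_num
      · norm_num
      · norm_num
      · norm_num
      · norm_num
      · norm_num
      · refine le_trans ?_ (exp_neg_ge 156)
        norm_num
    have S : (-0.1453 : ℝ) ≤ 1 - LS 0.14 ∧ 1 - LS 0.14 ≤ 0 := by
      unfold LS; constructor <;> norm_num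
    push_cast at N
    nlinarith [S.1, S.2]
  rcases lt_or_gt_of_ne hg1 with x1 | x1
  · have T := LL_tan hcc hgg (t := t) (s := 0.26)
      (Or.inr ⟨h0, by norm_num⟩) (Or.inl ⟨by linarith, by linarith⟩)
      (Or.inl ⟨by linarith, by linarith⟩) (Or.inl ⟨by linarith, by linarith⟩)
      (Or.inl ⟨by linarith, by linarith⟩) (Or.inr ⟨by linarith, by linarith⟩)
      (Or.inl ⟨by linarith, by linarith⟩) (Or.inl ⟨by linarith, by linarith⟩)
    have N : LL 0.26 ≤ (-(144 : ℕ) : ℝ) / 100 := by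
      apply LL_num (a0 := 0.26) (a1 := 0.74) (a2 := 1.74) (a3 := 0.2876) (a4 := 0.239576)
      · rw [abs_of_pos (by norm_num)]
      · rw [abs_of_neg (by norm_num)]; norm_num
      · rw [abs_of_neg (by norm_num)]; norm_num
      · rw [abs_of_pos (by norm_num)]; norm_num
      · rw [abs_of_pos (by norm_num)]; norm_num
      · norm_num
      · norm_num
      · norm_num
      · norm_num
      · norm_num
      · refine le_trans ?_ (exp_neg_ge 144)
        norm_num
    have S : (0 : ℝ) ≤ 1 - LS 0.26 ∧ 1 - LS 0.26 ≤ 0.0356 := by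
      unfold LS; constructor <;> norm_num
    push_cast at N
    nlinarith [S.1, S.2]
  rcases lt_or_gt_of_ne h1 with x2 | x2
  · have T := LL_tan hcc hgg (t := t) (s := 0.55)
      (Or.inr ⟨h0, by norm_num⟩) (Or.inl ⟨by linarith, by linarith⟩)
      (Or.inl ⟨by linarith, by linarith⟩) (Or.inr ⟨by linarith, by linarith⟩)
      (Or.inl ⟨by linarith, by linarith⟩) (Or.inr ⟨by linarith, by linarith⟩)
      (Or.inl ⟨by linarith, by linarith⟩) (Or.inl ⟨by linarith, by linarith⟩)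
    have N : LL 0.55 ≤ (-(115 : ℕ) : ℝ) / 100 := by
      apply LL_num (a0 := 0.55) (a1 := 0.45) (a2 := 1.45) (a3 := 0.3475) (a4 := 0.953875)
      · rw [abs_of_pos (by norm_num)]
      · rw [abs_of_neg (by norm_num)]; norm_num
      · rw [abs_of_neg (by norm_num)]; norm_num
      · rw [abs_of_neg (by norm_num)]; norm_num
      · rw [abs_of_pos (by norm_num)]; norm_num
      · norm_num
      · norm_num
      · norm_num
      · norm_num
      · norm_num
      · refine le_trans ?_ (exp_neg_ge 115)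
        norm_num
    have S : (0 : ℝ) ≤ 1 - LS 0.55 ∧ 1 - LS 0.55 ≤ 0.0933 := by
      unfold LS; constructor <;> norm_num
    push_cast at N
    nlinarith [S.1, S.2]
  rcases lt_or_gt_of_ne hr2 with x3 | x3
  · have T := LL_tan hcc hgg (t := t) (s := 1.45)
      (Or.inr ⟨h0, by norm_num⟩) (Or.inr ⟨by linarith, by linarith⟩)
      (Or.inl ⟨by linarith, by linarith⟩) (Or.inr ⟨by linarith, by linarith⟩)
      (Or.inl ⟨by linarith, by linarith⟩) (Or.inr ⟨by linarith, by linarith⟩)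
      (Or.inl ⟨by linarith, by linarith⟩) (Or.inl ⟨by linarith, by linarith⟩)
    have N : LL 1.45 ≤ (-(25 : ℕ) : ℝ) / 100 := by
      apply LL_num (a0 := 1.45) (a1 := 0.45) (a2 := 0.55) (a3 := 1.2475) (a4 := 0.236125)
      · rw [abs_of_pos (by norm_num)]
      · rw [abs_of_pos (by norm_num)]; norm_num
      · rw [abs_of_neg (by norm_num)]; norm_num
      · rw [abs_of_neg (by norm_num)]; norm_num
      · rw [abs_of_pos (by norm_num)]; norm_num
      · norm_num
      · norm_num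
      · norm_num
      · norm_num
      · norm_num
      · refine le_trans ?_ (exp_neg_ge 25)
        norm_num
    have S : (-0.0404 : ℝ) ≤ 1 - LS 1.45 ∧ 1 - LS 1.45 ≤ 0 := by
      unfold LS; constructor <;> norm_num
    push_cast at N
    nlinarith [S.1, S.2]
  rcases lt_or_gt_of_ne h2 with x4 | x4
  · have T := LL_tan hcc hgg (t := t) (s := 1.82)
      (Or.inr ⟨h0, by norm_num⟩) (Or.inr ⟨by linarith, by linarith⟩)
      (Or.inl ⟨by linarith, by linarith⟩) (Or.inr ⟨by linarith, by linarith⟩)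
      (Or.inl ⟨by linarith, by linarith⟩) (Or.inr ⟨by linarith, by linarith⟩)
      (Or.inr ⟨by linarith, by linarith⟩) (Or.inl ⟨by linarith, by linarith⟩)
    have N : LL 1.82 ≤ ((12 : ℕ) : ℝ) / 100 := by
      apply LL_num (a0 := 1.82) (a1 := 0.82) (a2 := 0.18) (a3 := 1.1476) (a4 := 0.613432)
      · rw [abs_of_pos (by norm_num)]
      · rw [abs_of_pos (by norm_num)]; norm_num
      · rw [abs_of_neg (by norm_num)]; norm_num
      · rw [abs_of_neg (by norm_num)]; norm_num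
      · rw [abs_of_neg (by norm_num)]; norm_num
      · norm_num
      · norm_num
      · norm_num
      · norm_num
      · norm_num
      · refine le_trans ?_ (exp_pos_ge 12)
        norm_num
    have S : (0 : ℝ) ≤ 1 - LS 1.82 ∧ 1 - LS 1.82 ≤ 0.0244 := by
      unfold LS; constructor <;> norm_num
    push_cast at N
    nlinarith [S.1, S.2]
  rcases lt_or_gt_of_ne hg2 with x5 | x5
  · have T := LL_tan hcc hgg (t := t) (s := 2.2)
      (Or.inr ⟨h0, by norm_num⟩) (Or.inr ⟨by linarith, by linarith⟩)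
      (Or.inr ⟨by linarith, by linarith⟩) (Or.inr ⟨by linarith, by linarith⟩)
      (Or.inl ⟨by linarith, by linarith⟩) (Or.inr ⟨by linarith, by linarith⟩)
      (Or.inr ⟨by linarith, by linarith⟩) (Or.inl ⟨by linarith, by linarith⟩)
    have N : LL 2.2 ≤ ((50 : ℕ) : ℝ) / 100 := by
      apply LL_num (a0 := 2.2) (a1 := 1.2) (a2 := 0.2) (a3 := 0.76) (a4 := 1.352)
      · rw [abs_of_pos (by norm_num)]
      · rw [abs_of_pos (by norm_num)]; norm_num
      · rw [abs_of_pos (by norm_num)]; norm_num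
      · rw [abs_of_neg (by norm_num)]; norm_num
      · rw [abs_of_neg (by norm_num)]; norm_num
      · norm_num
      · norm_num
      · norm_num
      · norm_num
      · norm_num
      · refine le_trans ?_ (exp_pos_ge 50)
        norm_num
    have S : (0 : ℝ) ≤ 1 - LS 2.2 ∧ 1 - LS 2.2 ≤ 0.028 := by
      unfold LS; constructor <;> norm_num
    push_cast at N
    nlinarith [S.1, S.2]
  rcases lt_or_gt_of_ne hr3 with x6 | x6
  · have T := LL_tan hcc hgg (t := t) (s := 3)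
      (Or.inr ⟨h0, by norm_num⟩) (Or.inr ⟨by linarith, by linarith⟩)
      (Or.inr ⟨by linarith, by linarith⟩) (Or.inr ⟨by linarith, by linarith⟩)
      (Or.inr ⟨by linarith, by linarith⟩) (Or.inr ⟨by linarith, by linarith⟩)
      (Or.inr ⟨by linarith, by linarith⟩) (Or.inl ⟨by linarith, by linarith⟩)
    have N : LL 3 ≤ ((130 : ℕ) : ℝ) / 100 := by
      apply LL_num (a0 := 3) (a1 := 2) (a2 := 1) (a3 := 1) (a4 := 1)
      · rw [abs_of_pos (by norm_num)]
      · rw [abs_of_pos (by norm_num)]; norm_num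
      · rw [abs_of_pos (by norm_num)]; norm_num
      · rw [abs_of_pos (by norm_num)]; norm_num
      · rw [abs_of_neg (by norm_num)]; norm_num
      · norm_num
      · norm_num
      · norm_num
      · norm_num
      · norm_num
      · refine le_trans ?_ (exp_pos_ge 130)
        norm_num
    have S : (-0.0367 : ℝ) ≤ 1 - LS 3 ∧ 1 - LS 3 ≤ 0 := by
      unfold LS; constructor <;> norm_num
    push_cast at N
    nlinarith [S.1, S.2]
  have T := LL_tan hcc hgg (t := t) (s := 3.75)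
    (Or.inr ⟨h0, by norm_num⟩) (Or.inr ⟨by linarith, by linarith⟩)
    (Or.inr ⟨by linarith, by linarith⟩) (Or.inr ⟨by linarith, by linarith⟩)
    (Or.inr ⟨by linarith, by linarith⟩) (Or.inr ⟨by linarith, by linarith⟩)
    (Or.inr ⟨by linarith, by linarith⟩) (Or.inr ⟨by linarith, by linarith⟩)
  have N : LL 3.75 ≤ ((205 : ℕ) : ℝ) / 100 := by
    apply LL_num (a0 := 3.75) (a1 := 2.75) (a2 := 1.75) (a3 := 3.8125) (a4 := 3.921875)
    · rw [abs_of_pos (by norm_num)]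
    · rw [abs_of_pos (by norm_num)]; norm_num
    · rw [abs_of_pos (by norm_num)]; norm_num
    · rw [abs_of_pos (by norm_num)]; norm_num
    · rw [abs_of_pos (by norm_num)]; norm_num
    · norm_num
    · norm_num
    · norm_num
    · norm_num
    · norm_num
    · refine le_trans ?_ (exp_pos_ge 205)
      norm_num
  have S : (0 : ℝ) ≤ 1 - LS 3.75 ∧ 1 - LS 3.75 ≤ 0.0215 := by
    unfold LS; constructor <;> norm_num
  push_cast at N
  nlinarith [S.1, S.2]

end Pool.Agent.TS
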