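import Mathlib

/-!
# Systems of Hecke eigenvalues of Artin type on `GL_n`

(MP_ef641d_nt.)  `π` is a cuspidal automorphic representation of `GL_n(A_ℚ)` with unitary central
character of finite order, unramified outside the finite set `E` of primes; the traces `a p` of its
Satake parameters are algebraic integers of a number field `K`, and for every embedding
`τ : K →+* ℂ` there is a cuspidal `π^τ`, unramified outside `E`, with Satake parameter
`α τ p : Fin n → ℂ` of trace `τ (a p)` at every prime `p ∉ E`.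
-/

set_option autoImplicit false

namespace Pool.Agent.TS

open Filter Topology

/-- `z` is a root of unity. -/
def IsRU (z : ℂ) : Prop := ∃ m : ℕ, 0 < m ∧ z ^ m = 1

/-- `z` is a sum of `n` roots of unity. -/
def IsSumRU (n : ℕ) (z : ℂ) : Prop := ∃ f : Fin n → ℂ, (∀ i, IsRU (f i)) ∧ ∑ i, f i = z

open Classical in
/-- The primes `p ≤ x` with the property `S`. -/
noncomputable def primesUpTo (S : Set ℕ) (x : ℕ) : Finset ℕ :=
  (Finset.range (x + 1)).filter fun p => p.Prime ∧ p ∈ S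

/-- The set `S` of primes has lower natural density at least `δ` (relative to all primes):
`liminf #{p ≤ x : p ∈ S} / π(x) ≥ δ`. -/
def LowerDensityGE (S : Set ℕ) (δ : ℝ) : Prop :=
  ∀ ε : ℝ, 0 < ε → ∀ᶠ x : ℕ in atTop,
    (δ - ε) * (Nat.primeCounting x : ℝ) ≤ ((primesUpTo S x).card : ℝ)

/-- The facts that are used about the family `(π^τ)`. -/
structure ArtinSystem (n : ℕ) (K : Type) [Field K] [NumberField K] (E : Finset ℕ)
    (a : ℕ → K) (α : (K →+* ℂ) → ℕ → Fin n → ℂ) : Prop where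
  /-- the coefficient field is totally real or CM (this follows from the unitarity of all `π^τ`) -/
  cm : ∃ c : K →+* K, ∀ (τ : K →+* ℂ) (x : K), τ (c x) = (starRingEnd ℂ) (τ x)
  /-- the Hecke traces are algebraic integers -/
  integral : ∀ p : ℕ, p.Prime → p ∉ E → IsIntegral ℤ (a p)
  /-- `a p` is the trace of the Satake parameter -/
  trace : ∀ (τ : K →+* ℂ) (p : ℕ), p.Prime → p ∉ E → ∑ i, α τ p i = τ (a p)
  /-- `π^τ_p` is unitary: its Satake parameter is stable under `z ↦ 1 / conj z` -/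
  unitary : ∀ (τ : K →+* ℂ) (p : ℕ), p.Prime → p ∉ E →
    ∃ σ : Equiv.Perm (Fin n), ∀ i, α τ p (σ i) * (starRingEnd ℂ) (α τ p i) = 1
  /-- the central character has finite order -/
  central : ∃ M : ℕ, 0 < M ∧ ∀ (τ : K →+* ℂ) (p : ℕ), p.Prime → p ∉ E → (∏ i, α τ p i) ^ M = 1
  /-- Rankin-Selberg (Jacquet-Shalika): `∑_{p ≤ x} |a p|^2 ≤ (1 + o(1)) π(x)` for every `π^τ` -/
  rankin : ∀ (τ : K →+* ℂ) (ε : ℝ), 0 < ε → ∀ᶠ x : ℕ in atTop,
    ∑ p ∈ primesUpTo {p | p ∉ E} x, ‖τ (a p)‖ ^ 2 ≤ (1 + ε) * (Nat.primeCounting x : ℝ)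

end Pool.Agent.TS
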